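import Mathlib

/-!
# Monomial groups have the rank property
-/

namespace Q6.Mono

open Matrix

universe u

/-- The rank property of a group of invertible matrices: for every singular `a` some `g` in the
group satisfies `rank (a g a) = rank a`. -/
def RankProperty {n : ℕ} {F : Type u} [Field F] (G : Subgroup (GL (Fin n) F)) : Prop :=
  ∀ a : Matrix (Fin n) (Fin n) F, a.det = 0 →
    ∃ g ∈ G, (a * (g : Matrix (Fin n) (Fin n) F) * a).rank = a.rank

variable {F : Type u} [Field F]

/-- A matrix of rank `r` has `r` independent rows. -/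
lemma exists_rows {n m r : ℕ} (a : Matrix (Fin n) (Fin m) F) (ha : a.rank = r) :
    ∃ α : Fin r → Fin n, Function.Injective α ∧ LinearIndependent F (a.submatrix α id).row := by
  obtain ⟨b, hb1, hb2, hb3⟩ := exists_linearIndependent F (Set.range a.row)
  have hfin : b.Finite := (Set.finite_range _).subset hb1
  have := hfin.fintype
  have hcard : Fintype.card b = r := by
    rw [← finrank_span_eq_card hb3, Subtype.range_coe, hb2, ← Matrix.rank_eq_finrank_span_row, ha]
  let e : Fin r ≃ b := (Fintype.equivFinOfCardEq hcard).symm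
  have hidx : ∀ v : b, ∃ i, a.row i = v := fun v => hb1 v.2
  choose idx hidx using hidx
  refine ⟨fun j => idx (e j), fun i j hij => ?_, ?_⟩
  · have h1 : a.row (idx (e i)) = a.row (idx (e j)) := congrArg a.row hij
    rw [hidx, hidx] at h1
    exact e.injective (Subtype.ext h1)
  · have h1 : (a.submatrix (fun j => idx (e j)) id).row = fun j => ((e j : b) : Fin m → F) := by
      ext j k
      exact congrFun (hidx (e j)) k
    rw [h1]
    exact hb3.comp _ e.injective

lemma exists_cols {n r : ℕ} (Y : Matrix (Fin r) (Fin n) F) (hY : LinearIndependent F Y.row) :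
    ∃ β : Fin r → Fin n, Function.Injective β ∧ (Y.submatrix id β).det ≠ 0 := by
  have hr : Yᵀ.rank = r := by
    rw [Matrix.rank_transpose, hY.rank_matrix, Fintype.card_fin]
  obtain ⟨β, hβ, h⟩ := exists_rows Yᵀ hr
  refine ⟨β, hβ, ?_⟩
  rw [Matrix.linearIndependent_rows_iff_isUnit, Matrix.isUnit_iff_isUnit_det] at h
  rw [← Matrix.det_transpose]
  exact h.ne_zero

/-- Changing one diagonal entry. -/
lemma mul_diagonal_update {n r : ℕ} (Y : Matrix (Fin r) (Fin n) F) (X : Matrix (Fin n) (Fin r) F)
    (t : Fin n → F) (i : Fin n) (c : F) :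
    Y * diagonal (Function.update t i c) * X = Y * diagonal t * X +
      replicateCol Unit (fun a => (c - t i) * Y a i) * replicateRow Unit (X i) := by
  ext a b
  rw [Matrix.add_apply, Matrix.mul_apply, Matrix.mul_apply, Matrix.mul_apply]
  simp only [Matrix.mul_diagonal, Finset.univ_unique, Finset.sum_singleton,
    Matrix.replicateCol_apply, Matrix.replicateRow_apply]
  rw [← Finset.sum_erase_add _ _ (Finset.mem_univ i), ← Finset.sum_erase_add (a := i) _
    (fun x => Y a x * t x * X x b) (Finset.mem_univ i)]
  have h1 : ∀ x ∈ Finset.univ.erase i, Y a x * Function.update t i c x * X x b =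
      Y a x * t x * X x b := by
    intro x hx
    rw [Function.update_of_ne (Finset.ne_of_mem_erase hx)]
  rw [Finset.sum_congr rfl h1, Function.update_self]
  ring

/-- A multi-affine determinant which is somewhere nonzero is nonzero at a point with nonzero
coordinates. -/
lemma exists_nonzero [Fintype F] (hF : 3 ≤ Fintype.card F) {n r : ℕ}
    (Y : Matrix (Fin r) (Fin n) F) (X : Matrix (Fin n) (Fin r) F)
    (h0 : ∃ t : Fin n → F, (Y * diagonal t * X).det ≠ 0) :
    ∃ t : Fin n → F, (∀ i, t i ≠ 0) ∧ (Y * diagonal t * X).det ≠ 0 := by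
  classical
  have key : ∀ s : Finset (Fin n), ∃ t : Fin n → F, (∀ i ∈ s, t i ≠ 0) ∧
      (Y * diagonal t * X).det ≠ 0 := by
    intro s
    induction s using Finset.induction_on with
    | empty =>
      obtain ⟨t, ht⟩ := h0
      exact ⟨t, fun i hi => absurd hi (Finset.notMem_empty i), ht⟩
    | insert i s his ih =>
      obtain ⟨t, ht1, ht2⟩ := ih
      set N := Y * diagonal t * X with hN
      have hNu : IsUnit N.det := isUnit_iff_ne_zero.2 ht2
      set κ := (replicateRow Unit (X i) * N⁻¹ * replicateCol Unit (fun a => Y a i)) () () with hκ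
      have hdet : ∀ c, (Y * diagonal (Function.update t i c) * X).det =
          N.det * (1 + (c - t i) * κ) := by
        intro c
        rw [mul_diagonal_update, det_add_replicateCol_mul_replicateRow hNu]
        congr 1
        have h1 : replicateCol Unit (fun a => (c - t i) * Y a i) =
            (c - t i) • replicateCol Unit (fun a => Y a i) := by
          ext a b
          rfl
        rw [h1, Matrix.mul_smul, Matrix.det_unique, Matrix.add_apply, Matrix.smul_apply,
          Matrix.one_apply_eq, smul_eq_mul]
      obtain ⟨c, hc⟩ : ∃ c : F, c ∉ ({0, t i - κ⁻¹} : Finset F) := by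
        by_contra hcon
        push Not at hcon
        have h1 : (Finset.univ : Finset F) ⊆ {0, t i - κ⁻¹} := fun x _ => hcon x
        have h2 := Finset.card_le_card h1
        have h3 := Finset.card_le_two (a := (0 : F)) (b := t i - κ⁻¹)
        rw [Finset.card_univ] at h2
        omega
      rw [Finset.mem_insert, Finset.mem_singleton, not_or] at hc
      refine ⟨Function.update t i c, ?_, ?_⟩
      · intro j hj
        rcases Finset.mem_insert.1 hj with rfl | hj'
        · rw [Function.update_self]
          exact hc.1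
        · rw [Function.update_of_ne (by rintro rfl; exact his hj')]
          exact ht1 j hj'
      · rw [hdet]
        refine mul_ne_zero ht2 ?_
        intro h
        by_cases hk : κ = 0
        · rw [hk, mul_zero, add_zero] at h
          exact one_ne_zero h
        · apply hc.2
          field_simp
          linear_combination h
  obtain ⟨t, h1, h2⟩ := key Finset.univ
  exact ⟨t, fun i => h1 i (Finset.mem_univ i), h2⟩

/-- The group of monomial matrices: exactly one nonzero entry in every row, the positions being
given by a permutation. -/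
def monomial (n : ℕ) (F : Type u) [Field F] : Subgroup (GL (Fin n) F) where
  carrier := {g | ∃ π : Equiv.Perm (Fin n), ∀ i j,
    (g : Matrix (Fin n) (Fin n) F) i j ≠ 0 ↔ j = π i}
  one_mem' := ⟨1, fun i j => by
    rw [Units.val_one, Matrix.one_apply, Equiv.Perm.one_apply]
    by_cases h : i = j
    · simp [h]
    · rw [if_neg h]
      simp [Ne.symm h]⟩
  mul_mem' := by
    rintro g h ⟨π, hπ⟩ ⟨ρ, hρ⟩
    refine ⟨ρ * π, fun i j => ?_⟩
    have h1 : ((g * h : GL (Fin n) F) : Matrix (Fin n) (Fin n) F) i j =
        (g : Matrix (Fin n) (Fin n) F) i (π i) * (h : Matrix (Fin n) (Fin n) F) (π i) j := by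
      rw [Units.val_mul, Matrix.mul_apply]
      apply Finset.sum_eq_single (π i)
      · intro k _ hk
        have : (g : Matrix (Fin n) (Fin n) F) i k = 0 := by
          by_contra hne
          exact hk ((hπ i k).1 hne)
        rw [this, zero_mul]
      · intro hk
        exact absurd (Finset.mem_univ _) hk
    rw [h1, Equiv.Perm.mul_apply, ← hρ (π i) j]
    constructor
    · exact fun h => right_ne_zero_of_mul h
    · exact fun h => mul_ne_zero ((hπ i (π i)).2 rfl) h
  inv_mem' := by
    rintro g ⟨π, hπ⟩
    refine ⟨π⁻¹, fun k j => ?_⟩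
    have h1 : (g : Matrix (Fin n) (Fin n) F) (π⁻¹ k) k *
        ((g⁻¹ : GL (Fin n) F) : Matrix (Fin n) (Fin n) F) k j = if π⁻¹ k = j then 1 else 0 := by
      have h2 : ((g * g⁻¹ : GL (Fin n) F) : Matrix (Fin n) (Fin n) F) (π⁻¹ k) j =
          if π⁻¹ k = j then 1 else 0 := by
        rw [mul_inv_cancel, Units.val_one, Matrix.one_apply]
      rw [← h2, Units.val_mul, Matrix.mul_apply]
      symm
      apply Finset.sum_eq_single k
      · intro l _ hl
        have : (g : Matrix (Fin n) (Fin n) F) (π⁻¹ k) l = 0 := by
          by_contra hne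
          apply hl
          rw [(hπ _ l).1 hne]
          exact π.apply_symm_apply k
        rw [this, zero_mul]
      · intro hk
        exact absurd (Finset.mem_univ _) hk
    have h3 : (g : Matrix (Fin n) (Fin n) F) (π⁻¹ k) k ≠ 0 :=
      (hπ _ _).2 (π.apply_symm_apply k).symm
    constructor
    · intro h
      have h4 := mul_ne_zero h3 h
      rw [h1] at h4
      by_contra hne
      rw [if_neg (Ne.symm hne)] at h4
      exact h4 rfl
    · intro h
      rw [if_pos h.symm] at h1
      exact right_ne_zero_of_mul (h1 ▸ one_ne_zero)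

/-- The diagonal times permutation matrices are monomial. -/
lemma exists_monomial {n : ℕ} (t : Fin n → F) (ht : ∀ i, t i ≠ 0) (π : Equiv.Perm (Fin n)) :
    ∃ g ∈ monomial n F, ∀ (r : ℕ) (X : Matrix (Fin n) (Fin r) F),
      (g : Matrix (Fin n) (Fin n) F) * X = diagonal t * X.submatrix π id := by
  let M : Matrix (Fin n) (Fin n) F := fun i j => if j = π i then t i else 0
  have hMX : ∀ (r : ℕ) (X : Matrix (Fin n) (Fin r) F), M * X = diagonal t * X.submatrix π id := by
    intro r X
    ext i j
    rw [Matrix.diagonal_mul, Matrix.mul_apply, Finset.sum_eq_single (π i)]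
    · simp [M]
    · intro k _ hk
      simp [M, hk]
    · intro hk
      exact absurd (Finset.mem_univ _) hk
  let M' : Matrix (Fin n) (Fin n) F := fun i j => if i = π j then (t j)⁻¹ else 0
  have h1 : M * M' = 1 := by
    rw [hMX]
    ext i j
    rw [Matrix.diagonal_mul, Matrix.submatrix_apply, Matrix.one_apply]
    simp only [M', id]
    by_cases hij : i = j
    · rw [if_pos (by rw [hij]), if_pos hij, hij, mul_inv_cancel₀ (ht j)]
    · rw [if_neg (fun h => hij (π.injective h)), if_neg hij, mul_zero]
  have h2 : M' * M = 1 := mul_eq_one_comm.1 h1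
  refine ⟨⟨M, M', h1, h2⟩, ⟨π, fun i j => ?_⟩, hMX⟩
  change (if j = π i then t i else 0) ≠ 0 ↔ _
  by_cases h : j = π i
  · rw [if_pos h]
    exact ⟨fun _ => h, fun _ => ht i⟩
  · rw [if_neg h]
    exact ⟨fun h' => absurd rfl h', fun h' => absurd h' h⟩

/-- Over a field with at least three elements, the monomial group has the rank property. -/
theorem rankProperty_monomial [Fintype F] (hF : 3 ≤ Fintype.card F) (n : ℕ) :
    RankProperty (monomial n F) := by
  intro a _
  -- independent rows and columns
  obtain ⟨α, -, hα⟩ := exists_rows a rfl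
  obtain ⟨γ, -, hγ⟩ := exists_rows (r := a.rank) aᵀ (Matrix.rank_transpose a)
  set Y : Matrix (Fin a.rank) (Fin n) F := a.submatrix α id with hY
  set X : Matrix (Fin n) (Fin a.rank) F := a.submatrix id γ with hX
  have hγ' : LinearIndependent F Xᵀ.row := hγ
  obtain ⟨β, hβ, hYβ⟩ := exists_cols Y hα
  obtain ⟨δ, hδ, hXδ⟩ := exists_cols Xᵀ hγ'
  have hXδ' : (X.submatrix δ id).det ≠ 0 := by
    rw [← Matrix.det_transpose]
    exact hXδ
  -- a permutation matching the two index sets
  obtain ⟨π, hπ⟩ := (Equiv.Perm.isMultiplyPretransitive (Fin n) a.rank).exists_smul_eq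
    (⟨β, hβ⟩ : Fin a.rank ↪ Fin n) ⟨δ, hδ⟩
  have hπ' : ∀ j, π (β j) = δ j := fun j => DFunLike.congr_fun hπ j
  obtain ⟨t, ht, hdet⟩ := exists_nonzero hF Y (X.submatrix π id) (by
    classical
    refine ⟨fun i => if i ∈ Set.range β then 1 else 0, ?_⟩
    have h1 : Y * diagonal (fun i => if i ∈ Set.range β then (1 : F) else 0) *
        X.submatrix π id = Y.submatrix id β * X.submatrix δ id := by
      ext i j
      rw [Matrix.mul_apply, Matrix.mul_apply]
      simp only [Matrix.mul_diagonal, Matrix.submatrix_apply, id]
      rw [← Finset.sum_subset (Finset.subset_univ (Finset.univ.image β))]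
      · rw [Finset.sum_image (fun x _ y _ h => hβ h)]
        refine Finset.sum_congr rfl (fun x _ => ?_)
        rw [if_pos ⟨x, rfl⟩, mul_one, hπ']
      · intro x _ hx
        rw [if_neg, mul_zero, zero_mul]
        rintro ⟨y, rfl⟩
        exact hx (Finset.mem_image_of_mem _ (Finset.mem_univ y))
    rw [h1, Matrix.det_mul]
    exact mul_ne_zero hYβ hXδ')
  obtain ⟨g, hg, hgX⟩ := exists_monomial t ht π
  refine ⟨g, hg, le_antisymm (Matrix.rank_mul_le_right _ _) ?_⟩
  have h1 : (a * (g : Matrix (Fin n) (Fin n) F) * a).submatrix α γ =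
      Y * diagonal t * X.submatrix π id := by
    rw [Matrix.mul_assoc Y, ← hgX, ← Matrix.mul_assoc]
    rfl
  have h2 := Matrix.rank_submatrix_le (a * (g : Matrix (Fin n) (Fin n) F) * a) α γ
  rw [h1, Matrix.rank_of_det_ne_zero hdet, Fintype.card_fin] at h2
  exact h2

/-- The monomial group does not contain the special linear group. -/
theorem not_sl_le {n : ℕ} (hn : 2 ≤ n) :
    ¬ (Matrix.GeneralLinearGroup.det (n := Fin n) (R := F)).ker ≤ monomial n F := by
  intro h
  have hne : (⟨0, by omega⟩ : Fin n) ≠ ⟨1, by omega⟩ := by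
    intro h
    have := congrArg Fin.val h
    change (0 : ℕ) = 1 at this
    exact absurd this (by decide)
  set i : Fin n := ⟨0, by omega⟩ with hi
  set j : Fin n := ⟨1, by omega⟩ with hj
  have hdet : (Matrix.transvection i j (1 : F)).det = 1 := Matrix.det_transvection_of_ne i j hne 1
  let g : GL (Fin n) F := Matrix.GeneralLinearGroup.mkOfDetNeZero (Matrix.transvection i j (1 : F))
    (by rw [hdet]; exact one_ne_zero)
  have hg : g ∈ (Matrix.GeneralLinearGroup.det (n := Fin n) (R := F)).ker := by
    rw [MonoidHom.mem_ker]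
    apply Units.ext
    exact hdet
  obtain ⟨π, hπ⟩ := h hg
  have h1 : (g : Matrix (Fin n) (Fin n) F) i i ≠ 0 := by
    change Matrix.transvection i j (1 : F) i i ≠ 0
    simp [Matrix.transvection, hne.symm]
  have h2 : (g : Matrix (Fin n) (Fin n) F) i j ≠ 0 := by
    change Matrix.transvection i j (1 : F) i j ≠ 0
    simp [Matrix.transvection, hne]
  exact hne (((hπ i i).1 h1).trans ((hπ i j).1 h2).symm)

end Q6.Mono
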